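import Mathlib

/-!
An even, locally constant colouring of the nonzero elements of `ℤ₂ × ℤ₃` with finitely many colours
in which `z` and `2 z` never have the same colour.
-/

set_option autoImplicit false

open Filter Topology

namespace Pool.Agent.H186Z.Bel

/-- the compact ring of 6-adic integers -/
abbrev G : Type := ℤ_[2] × ℤ_[3]

instance : IsUltrametricDist G where
  dist_triangle_max x y z := by
    simp only [Prod.dist_eq]
    have h1 := IsUltrametricDist.dist_triangle_max x.1 y.1 z.1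
    have h2 := IsUltrametricDist.dist_triangle_max x.2 y.2 z.2
    refine max_le (h1.trans ?_) (h2.trans ?_)
    · exact max_le_max (le_max_left _ _) (le_max_left _ _)
    · exact max_le_max (le_max_right _ _) (le_max_right _ _)

lemma mul_eq_zero_int {n : ℤ} (hn : n ≠ 0) {z : G} (h : (n : G) * z = 0) : z = 0 := by
  have h1 : (n : ℤ_[2]) * z.1 = 0 := by simpa using congrArg Prod.fst h
  have h2 : (n : ℤ_[3]) * z.2 = 0 := by simpa using congrArg Prod.snd h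
  have a1 : (n : ℤ_[2]) ≠ 0 := by exact_mod_cast hn
  have a2 : (n : ℤ_[3]) ≠ 0 := by exact_mod_cast hn
  exact Prod.ext ((mul_eq_zero.1 h1).resolve_left a1) ((mul_eq_zero.1 h2).resolve_left a2)

lemma two_pow_mul_ne {z : G} (hz : z ≠ 0) (k : ℕ) : (2 : G) ^ k * z ≠ 0 := by
  intro h
  apply hz
  apply mul_eq_zero_int (n := 2 ^ k) (by positivity)
  push_cast
  exact h

lemma intCast_inj {m n : ℤ} (h : (m : G) = n) : m = n := by
  have h1 : (m : ℤ_[2]) = n := by simpa using congrArg Prod.fst h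
  exact_mod_cast h1

lemma even_of_two_mul {z : G} {m : ℤ} (h : 2 * z = m) : Even m := by
  have h1 : (2 : ℤ_[2]) * z.1 = m := by simpa using congrArg Prod.fst h
  have h2 : ‖(m : ℤ_[2])‖ < 1 := by
    rw [PadicInt.norm_lt_one_iff_dvd, ← h1]
    exact ⟨z.1, by simp⟩
  rw [PadicInt.norm_int_lt_one_iff_dvd] at h2
  exact even_iff_two_dvd.2 (by exact_mod_cast h2)

lemma three_dvd_of_three_mul {z : G} {m : ℤ} (h : 3 * z = m) : 3 ∣ m := by
  have h1 : (3 : ℤ_[3]) * z.2 = m := by simpa using congrArg Prod.snd h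
  have h2 : ‖(m : ℤ_[3])‖ < 1 := by
    rw [PadicInt.norm_lt_one_iff_dvd, ← h1]
    exact ⟨z.2, by simp⟩
  rw [PadicInt.norm_int_lt_one_iff_dvd] at h2
  exact_mod_cast h2

lemma dense_int : DenseRange (Int.cast : ℤ → G) := by
  rw [Metric.denseRange_iff]
  intro z ε hε
  obtain ⟨m, hm⟩ := (PadicInt.denseRange_intCast (p := 2)).exists_dist_lt z.1 hε
  obtain ⟨m', hm'⟩ := (PadicInt.denseRange_intCast (p := 3)).exists_dist_lt z.2 hε
  obtain ⟨k, hk⟩ := PadicInt.exists_pow_neg_lt 2 hε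
  obtain ⟨l, hl⟩ := PadicInt.exists_pow_neg_lt 3 hε
  have hc : IsCoprime ((2 : ℤ) ^ k) ((3 : ℤ) ^ l) :=
    IsCoprime.pow (Int.isCoprime_iff_gcd_eq_one.2 (by norm_num))
  obtain ⟨s, t, hst⟩ := hc
  refine ⟨m' * (s * 2 ^ k) + m * (t * 3 ^ l), ?_⟩
  rw [Prod.dist_eq, max_lt_iff]
  constructor
  · refine lt_of_le_of_lt (IsUltrametricDist.dist_triangle_max _ (m : ℤ_[2]) _) (max_lt hm ?_)
    rw [Prod.fst_intCast, dist_eq_norm, ← Int.cast_sub]
    refine lt_of_le_of_lt (PadicInt.norm_int_le_pow_iff_dvd.2 ?_) hk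
    refine ⟨(m - m') * s, ?_⟩
    have : t * 3 ^ l = 1 - s * 2 ^ k := by linarith
    rw [this]; push_cast; ring
  · refine lt_of_le_of_lt (IsUltrametricDist.dist_triangle_max _ (m' : ℤ_[3]) _) (max_lt hm' ?_)
    rw [Prod.snd_intCast, dist_eq_norm, ← Int.cast_sub]
    refine lt_of_le_of_lt (PadicInt.norm_int_le_pow_iff_dvd.2 ?_) hl
    refine ⟨(m' - m) * t, ?_⟩
    have : s * 2 ^ k = 1 - t * 3 ^ l := by linarith
    rw [this]; push_cast; ring

/-- the square of the unit part of a 3-adic integer, modulo 9 -/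
noncomputable def u3 (x : ℤ_[3]) : ZMod (3 ^ 2) :=
  Classical.epsilon fun r => ∃ (k : ℕ) (u : ℤ_[3]), ‖u‖ = 1 ∧ x = u * 3 ^ k ∧
    r = PadicInt.toZModPow 2 (u ^ 2)

lemma u3_eq {u : ℤ_[3]} (hu : ‖u‖ = 1) (k : ℕ) :
    u3 (u * 3 ^ k) = PadicInt.toZModPow 2 (u ^ 2) := by
  have h := Classical.epsilon_spec (p := fun r : ZMod (3 ^ 2) => ∃ (l : ℕ) (w : ℤ_[3]), ‖w‖ = 1 ∧
    u * 3 ^ k = w * 3 ^ l ∧ r = PadicInt.toZModPow 2 (w ^ 2)) ⟨_, k, u, hu, rfl, rfl⟩
  obtain ⟨l, w, hw, h1, h2⟩ := h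
  have h3 := congrArg norm h1
  have e : ∀ j : ℕ, ‖(3 : ℤ_[3]) ^ j‖ = (3 : ℝ) ^ (-(j : ℤ)) := fun j => by
    simpa using PadicInt.norm_p_pow (p := 3) j
  rw [norm_mul, norm_mul, hu, hw, one_mul, one_mul, e, e] at h3
  have h4 : k = l := by
    have := zpow_right_injective₀ (a := (3 : ℝ)) (by norm_num) (by norm_num) h3
    omega
  subst h4
  have h5 : u = w := mul_right_cancel₀ (pow_ne_zero _ (by norm_num)) h1
  unfold u3
  rw [h2, h5]

lemma dec3 {x : ℤ_[3]} (hx : x ≠ 0) : ∃ (k : ℕ) (u : ℤ_[3]), ‖u‖ = 1 ∧ x = u * 3 ^ k :=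
  ⟨x.valuation, PadicInt.unitCoeff hx, PadicInt.norm_units _, by
    simpa using PadicInt.unitCoeff_spec hx⟩

lemma u3_neg (x : ℤ_[3]) : u3 (-x) = u3 x := by
  by_cases hx : x = 0
  · simp [hx]
  obtain ⟨k, u, hu, rfl⟩ := dec3 hx
  rw [← neg_mul, u3_eq (by simpa using hu), u3_eq hu, neg_sq]

lemma u3_two {x : ℤ_[3]} (hx : x ≠ 0) : u3 (2 * x) ≠ u3 x := by
  obtain ⟨k, u, hu, rfl⟩ := dec3 hx
  have h2 : ‖(2 : ℤ_[3])‖ = 1 := by
    have := (PadicInt.norm_natCast_eq_one_iff (p := 3) (n := 2)).2 (by norm_num)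
    simpa using this
  rw [← mul_assoc, u3_eq (by rw [norm_mul, h2, hu, one_mul]), u3_eq hu, mul_pow, map_mul]
  have hunit : IsUnit (PadicInt.toZModPow 2 (u ^ 2)) :=
    ((PadicInt.isUnit_iff.2 hu).pow 2).map _
  intro h
  have h4 : PadicInt.toZModPow 2 ((2 : ℤ_[3]) ^ 2) = 1 := by
    apply hunit.mul_right_cancel
    rw [h, one_mul]
  rw [map_pow, map_ofNat] at h4
  revert h4
  decide

lemma u3_loc {x : ℤ_[3]} (hx : x ≠ 0) : ∀ᶠ y in 𝓝 x, u3 y = u3 x := by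
  obtain ⟨k, u, hu, rfl⟩ := dec3 hx
  have hpos : (0 : ℝ) < ((3 : ℕ) : ℝ) ^ (-((k + 2 : ℕ) : ℤ)) := by positivity
  filter_upwards [Metric.closedBall_mem_nhds _ hpos] with y hy
  rw [Metric.mem_closedBall, dist_eq_norm, PadicInt.norm_le_pow_iff_mem_span_pow,
    Ideal.mem_span_singleton] at hy
  obtain ⟨w, hw⟩ := hy
  have e : y = (u + 9 * w) * 3 ^ k := by
    have : y = u * 3 ^ k + ((3 : ℕ) : ℤ_[3]) ^ (k + 2) * w := by rw [← hw]; ring
    rw [this]; push_cast; ring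
  have h9 : ‖9 * w‖ < 1 := by
    rw [PadicInt.norm_lt_one_iff_dvd]
    exact ⟨3 * w, by push_cast; ring⟩
  have hn : ‖u + 9 * w‖ = 1 := by
    rw [PadicInt.norm_add_eq_max_of_ne (by rw [hu]; exact h9.ne'), hu]
    exact max_eq_left h9.le
  rw [e, u3_eq hn, u3_eq hu, map_pow, map_pow, map_add, map_mul, map_ofNat]
  have : (9 : ZMod (3 ^ 2)) = 0 := by decide
  rw [this, zero_mul, add_zero]

lemma val_eq_of_norm {x y : ℤ_[2]} (hx : x ≠ 0) (h : ‖y‖ = ‖x‖) : y.valuation = x.valuation := by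
  have hy : y ≠ 0 := by
    intro h0
    rw [h0, norm_zero] at h
    exact hx (norm_eq_zero.1 h.symm)
  rw [PadicInt.norm_eq_zpow_neg_valuation hx, PadicInt.norm_eq_zpow_neg_valuation hy] at h
  have := zpow_right_injective₀ (a := ((2 : ℕ) : ℝ)) (by norm_num) (by norm_num) h
  omega

lemma norm_loc {p : ℕ} [Fact p.Prime] {x : ℤ_[p]} (hx : x ≠ 0) : ∀ᶠ y in 𝓝 x, ‖y‖ = ‖x‖ := by
  filter_upwards [Metric.ball_mem_nhds x (norm_pos_iff.2 hx)] with y hy
  rw [Metric.mem_ball, dist_eq_norm, sub_eq_add_neg, ← norm_neg x] at hy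
  rw [PadicInt.norm_eq_of_norm_add_lt_right hy, norm_neg]

/-- the finite set of colours -/
abbrev Color : Type := Bool × ZMod (3 ^ 2)

open Classical in
/-- the colouring -/
noncomputable def c (z : G) : Color :=
  if ‖z.2‖ < ‖z.1‖ then (true, (z.1.valuation : ZMod (3 ^ 2))) else (false, u3 z.2)

lemma snd_ne {z : G} (hz : z ≠ 0) (h : ¬ ‖z.2‖ < ‖z.1‖) : z.2 ≠ 0 := by
  intro h0
  apply hz
  rw [h0, norm_zero, not_lt] at h
  exact Prod.ext (norm_le_zero_iff.1 h) h0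

lemma fst_ne {z : G} (h : ‖z.2‖ < ‖z.1‖) : z.1 ≠ 0 :=
  norm_pos_iff.1 ((norm_nonneg _).trans_lt h)

lemma c_neg (z : G) : c (-z) = c z := by
  unfold c
  simp only [Prod.fst_neg, Prod.snd_neg, norm_neg, u3_neg]
  split_ifs with h
  · rw [val_eq_of_norm (fst_ne h) (norm_neg _)]
  · rfl

lemma c_two {z : G} (hz : z ≠ 0) : c (2 * z) ≠ c z := by
  unfold c
  split_ifs with h1 h2 h2
  · have a : (2 * z).1.valuation = z.1.valuation + 1 := by
      have : (2 * z).1 = ((2 : ℕ) : ℤ_[2]) ^ 1 * z.1 := by simp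
      rw [this, PadicInt.valuation_p_pow_mul _ _ (fst_ne h2), add_comm]
    rw [a]
    intro h
    have h3 := congrArg Prod.snd h
    simp only [Nat.cast_add, Nat.cast_one, add_eq_left] at h3
    revert h3
    decide
  · simp
  · simp
  · intro h
    have h3 := congrArg Prod.snd h
    exact u3_two (snd_ne hz h2) (by simpa using h3)

lemma c_loc {z : G} (hz : z ≠ 0) : ∀ᶠ w in 𝓝 z, c w = c z := by
  by_cases h : ‖z.2‖ < ‖z.1‖
  · have e1 : ∀ᶠ w : G in 𝓝 z, ‖w.2‖ < ‖w.1‖ :=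
      (ContinuousAt.eventually_lt (f := fun w : G => ‖w.2‖) (g := fun w : G => ‖w.1‖)
        (by fun_prop) (by fun_prop) h)
    have e2 : ∀ᶠ w : G in 𝓝 z, ‖w.1‖ = ‖z.1‖ :=
      continuous_fst.continuousAt.eventually (norm_loc (fst_ne h))
    filter_upwards [e1, e2] with w h1 h2
    unfold c
    rw [if_pos h1, if_pos h, val_eq_of_norm (fst_ne h) h2]
  · have h0 := snd_ne hz h
    have e1 : ∀ᶠ w : G in 𝓝 z, ‖w.2‖ = ‖z.2‖ :=
      continuous_snd.continuousAt.eventually (norm_loc h0)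
    have e2 : ∀ᶠ w : G in 𝓝 z, u3 w.2 = u3 z.2 :=
      continuous_snd.continuousAt.eventually (u3_loc h0)
    have e3 : ∀ᶠ w : G in 𝓝 z, w.1 ∈ Metric.ball z.1 ‖z.2‖ :=
      continuous_fst.continuousAt.eventually (Metric.ball_mem_nhds _ (norm_pos_iff.2 h0))
    filter_upwards [e1, e2, e3] with w h1 h2 h3
    have h4 : ¬ ‖w.2‖ < ‖w.1‖ := by
      rw [not_lt, h1]
      rw [Metric.mem_ball, dist_eq_norm] at h3
      have : w.1 = (w.1 - z.1) + z.1 := by ring
      rw [this]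
      exact (PadicInt.nonarchimedean _ _).trans (max_le h3.le (not_lt.1 h))
    unfold c
    rw [if_neg h4, if_neg h, h2]

/-- the itinerary of `z` under doubling -/
noncomputable def chi (z : G) : ℕ → Color := fun k => c (2 ^ k * z)

lemma chi_neg (z : G) : chi (-z) = chi z := by
  funext k
  simp [chi, c_neg]

lemma chi_cont {z : G} (hz : z ≠ 0) : ContinuousAt chi z := by
  rw [continuousAt_pi]
  intro k
  have h1 : ∀ᶠ w in 𝓝 z, c (2 ^ k * w) = c (2 ^ k * z) :=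
    (show ContinuousAt (fun w : G => 2 ^ k * w) z by fun_prop).eventually
      (c_loc (two_pow_mul_ne hz k))
  exact (continuousAt_const (y := c (2 ^ k * z))).congr (h1.mono fun w hw => hw.symm)

lemma chi_ne {z : G} (hz : z ≠ 0) (k : ℕ) : chi z (k + 1) ≠ chi z k := by
  unfold chi
  rw [pow_succ', mul_assoc]
  exact c_two (two_pow_mul_ne hz k)

end Pool.Agent.H186Z.Bel
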