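import Pool.Agent.H186Z.Bel.Quot

/-!
Every map from the continuum to the circle has a continuous logarithm.
-/

set_option autoImplicit false

open Filter Topology Set Real

namespace Pool.Agent.H186Z.Bel

lemma lift0 (u : C(X, Circle)) : ∃ h : C(X, ℝ), ∀ x, Circle.exp (h x) = u x := by
  classical
  have hP : (1 : Circle) ≠ Circle.exp π := by
    intro h
    have h1 := Circle.arg_exp (x := π) (by linarith [pi_pos]) le_rfl
    rw [← h] at h1
    simp at h1
    exact pi_ne_zero h1.symm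
  have harg : ∀ (v : X → Circle), Continuous v → ∀ x, v x ≠ Circle.exp π →
      ContinuousAt (fun y => Complex.arg (v y)) x := by
    intro v hv x hx
    have h1 : ((v x : Circle) : ℂ) ∈ Complex.slitPlane := by
      rw [Complex.mem_slitPlane_iff_arg]
      refine ⟨fun h => hx ?_, Circle.coe_ne_zero _⟩
      rw [← h, Circle.exp_arg]
    exact ContinuousAt.comp (g := Complex.arg) (f := fun y => ((v y : Circle) : ℂ))
      (Complex.continuousAt_arg h1) (by fun_prop)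
  have hv : Continuous fun x => u x * (Circle.exp π)⁻¹ := by fun_prop
  obtain ⟨W, hW, hZ, hU⟩ := exists_clopen_of_closed_subset_open
    (Z := {x | u x = Circle.exp π}) (U := {x | u x * (Circle.exp π)⁻¹ ≠ Circle.exp π})
    (isClosed_eq u.continuous continuous_const) (isOpen_ne_fun hv continuous_const) (by
      intro x hx
      have : u x = Circle.exp π := hx
      simpa [this] using hP)
  refine ⟨⟨fun x => if x ∈ W then Complex.arg (u x * (Circle.exp π)⁻¹ : Circle) + π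
    else Complex.arg (u x), ?_⟩, fun x => ?_⟩
  · rw [continuous_iff_continuousAt]
    intro x
    by_cases hx : x ∈ W
    · refine ((harg _ hv x (hU hx)).add (continuousAt_const (y := π))).congr ?_
      filter_upwards [hW.2.mem_nhds hx] with y hy
      simp only [hy, if_true, Pi.add_apply]
    · refine (harg _ u.continuous x (fun h => hx (hZ h))).congr ?_
      filter_upwards [hW.1.isOpen_compl.mem_nhds hx] with y hy
      have : y ∉ W := hy
      simp only [this, if_false]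
  · simp only [ContinuousMap.coe_mk]
    split_ifs
    · rw [Circle.exp_add, Circle.exp_arg]
      simp
    · exact Circle.exp_arg _

lemma lift1 (u : C(X × ℝ, Circle)) : ∃ h : C(X × ℝ, ℝ), ∀ q, Circle.exp (h q) = u q := by
  obtain ⟨h0, hh0⟩ := lift0 (u.comp ⟨fun x => (x, 0), by fun_prop⟩)
  let H : C(unitInterval × (X × ℝ), Circle) :=
    u.comp ⟨fun z => (z.2.1, (z.1 : ℝ) * z.2.2), by fun_prop⟩
  let f0 : C(X × ℝ, ℝ) := h0.comp ⟨Prod.fst, continuous_fst⟩
  have H0 : ∀ a, H (0, a) = Circle.exp (f0 a) := by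
    intro a
    simp [H, f0, hh0]
  refine ⟨(Circle.isCoveringMap_exp.liftHomotopy H f0 H0).comp ⟨fun q => (1, q), by fun_prop⟩,
    fun q => ?_⟩
  have := congrFun (Circle.isCoveringMap_exp.liftHomotopy_lifts H f0 H0) (1, q)
  simpa [H] using this

lemma int_diff (a b : X × ℝ → ℝ) (ha : Continuous a) (hb : Continuous b)
    (h : ∀ q, Circle.exp (a q) = Circle.exp (b q)) :
    ∃ κ : X → ℤ, Continuous κ ∧ ∀ x t, a (x, t) = b (x, t) + κ x * (2 * π) := by
  choose κ hκ using fun q => Circle.exp_eq_exp.1 (h q)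
  have hc : Continuous κ := by
    rw [Int.isClosedEmbedding_coe_real.isInducing.continuous_iff]
    have : (Int.cast : ℤ → ℝ) ∘ κ = fun q => (a q - b q) / (2 * π) := by
      funext q
      simp only [Function.comp]
      rw [hκ q]
      field_simp
      ring
    rw [this]
    fun_prop
  refine ⟨fun x => κ (x, 0), by fun_prop, fun x t => ?_⟩
  have : κ (x, t) = κ (x, 0) :=
    PreconnectedSpace.constant (f := fun t : ℝ => κ (x, t)) inferInstance (by fun_prop)
  rw [hκ (x, t), this]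

lemma cancel {m n : ℤ} {a : ℝ} (h : a + m * (2 * π) = a + n * (2 * π)) : m = n := by
  have h1 : (m : ℝ) = n := mul_right_cancel₀ (by positivity : (2 * π : ℝ) ≠ 0) (by linarith)
  exact_mod_cast h1

lemma bound_int {η : X → ℤ} (hη : Continuous η) : ∃ E : ℕ, ∀ x, |η x| ≤ E := by
  obtain ⟨E, hE⟩ := (((IsLocallyConstant.iff_continuous η).2 hη).range_finite.image
    Int.natAbs).bddAbove
  refine ⟨E, fun x => ?_⟩
  have := hE ⟨η x, ⟨x, rfl⟩, rfl⟩
  rw [abs_le]
  omega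

lemma tau_bound (e : ℤ → ℤ) (E B : ℕ) (τ : ℤ → ℤ) (he : ∀ j, |e j| ≤ E) (h1 : ∀ j, τ (τ j) = j)
    (h2 : ∀ j, |τ j + j| ≤ B) (h3 : ∀ j, e (τ j) = e j) (L : ℕ) :
    |∑ j ∈ Finset.Ico (0 : ℤ) L, e j - ∑ j ∈ Finset.Ico (-(L : ℤ)) 0, e j| ≤
      2 * ((4 * B + 2) * E) := by
  have hinj : Function.Injective τ := Function.Involutive.injective h1
  have e1 : ∑ j ∈ Finset.Ico (-(L : ℤ)) 0, e j = ∑ j ∈ (Finset.Ico (-(L : ℤ)) 0).image τ, e j := by
    rw [Finset.sum_image fun a _ b _ h => hinj h]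
    simp only [h3]
  have hb : ∀ S : Finset ℤ, S ⊆ Finset.Icc (-(B : ℤ)) B ∪ Finset.Icc ((L : ℤ) - B) (L + B) →
      |∑ j ∈ S, e j| ≤ (4 * B + 2) * E := by
    intro S hS
    have a1 : |∑ j ∈ S, e j| ≤ ∑ j ∈ S, (E : ℤ) :=
      (Finset.abs_sum_le_sum_abs _ _).trans (Finset.sum_le_sum fun j _ => he j)
    have a2 : S.card ≤ 4 * B + 2 := by
      refine (Finset.card_le_card hS).trans ((Finset.card_union_le _ _).trans ?_)
      simp only [Int.card_Icc]
      omega
    rw [Finset.sum_const, nsmul_eq_mul] at a1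
    refine a1.trans (mul_le_mul_of_nonneg_right ?_ (by positivity))
    exact_mod_cast a2
  rw [e1, ← Finset.sum_sdiff_sub_sum_sdiff]
  refine (abs_sub _ _).trans ?_
  have b1 := hb (Finset.Ico (0 : ℤ) L \ (Finset.Ico (-(L : ℤ)) 0).image τ) (by
    intro j hj
    simp only [Finset.mem_sdiff, Finset.mem_Ico, Finset.mem_image, not_exists, not_and] at hj
    have a1 := hj.2 (τ j)
    have a2 := abs_le.1 (h2 j)
    have a3 := h1 j
    simp only [Finset.mem_union, Finset.mem_Icc]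
    by_cases hh : -(L : ℤ) ≤ τ j ∧ τ j < 0
    · exact absurd a3 (a1 hh)
    · omega)
  have b2 := hb ((Finset.Ico (-(L : ℤ)) 0).image τ \ Finset.Ico (0 : ℤ) L) (by
    intro j hj
    simp only [Finset.mem_sdiff, Finset.mem_Ico, Finset.mem_image] at hj
    obtain ⟨⟨i, hi, rfl⟩, hj⟩ := hj
    have a2 := abs_le.1 (h2 i)
    simp only [Finset.mem_union, Finset.mem_Icc]
    omega)
  linarith

/-- a continuous integer cocycle that is reversible up to a coboundary is bounded -/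
lemma cocycle_bdd (φ : ℤ → X → ℤ) (ρ : X → ℤ) (hφ : ∀ i, Continuous (φ i)) (hρ : Continuous ρ)
    (hco : ∀ i j x, φ (i + j) x = φ i (TX j x) + φ j x)
    (hre : ∀ i x, ρ (TX i x) + φ i x = φ (-i) (sX x) + ρ x) :
    ∃ C : ℤ, ∀ i x, |φ i x| ≤ C := by
  obtain ⟨x0, hx0, τ, B, h1, h2, h3⟩ := reflX (φ 1) (hφ 1)
  obtain ⟨E, hE⟩ := bound_int (hφ 1)
  obtain ⟨Rr, hR⟩ := bound_int hρ
  have h0 : φ 0 x0 = 0 := by
    have := hco 0 0 x0
    rw [TX_zero, add_zero] at this
    omega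
  have s1 : ∀ L : ℕ, φ L x0 = ∑ j ∈ Finset.Ico (0 : ℤ) L, φ 1 (TX j x0) := by
    intro L
    induction L with
    | zero => simpa using h0
    | succ L ih =>
      have : Finset.Ico (0 : ℤ) ((L + 1 : ℕ) : ℤ) = insert (L : ℤ) (Finset.Ico (0 : ℤ) L) := by
        ext j
        simp only [Finset.mem_Ico, Finset.mem_insert]
        omega
      rw [this, Finset.sum_insert (by simp), ← ih, ← hco]
      congr 1
      push_cast; ring
  have s2 : ∀ L : ℕ, φ (-L) x0 = -∑ j ∈ Finset.Ico (-(L : ℤ)) 0, φ 1 (TX j x0) := by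
    intro L
    induction L with
    | zero => simpa using h0
    | succ L ih =>
      have : Finset.Ico (-((L + 1 : ℕ) : ℤ)) 0 =
          insert (-((L + 1 : ℕ) : ℤ)) (Finset.Ico (-(L : ℤ)) 0) := by
        ext j
        simp only [Finset.mem_Ico, Finset.mem_insert]
        omega
      rw [this, Finset.sum_insert (by simp)]
      have h4 := hco 1 (-((L + 1 : ℕ) : ℤ)) x0
      rw [show (1 : ℤ) + -((L + 1 : ℕ) : ℤ) = -(L : ℤ) by push_cast; ring] at h4
      linarith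
  have hb : ∀ i : ℤ, |φ i x0| ≤ 2 * ((4 * B + 2) * E) + 2 * Rr := by
    have hL : ∀ L : ℕ, |φ L x0| ≤ 2 * ((4 * B + 2) * E) + 2 * Rr ∧
        |φ (-L) x0| ≤ 2 * ((4 * B + 2) * E) + 2 * Rr := by
      intro L
      have a1 := abs_le.1 (tau_bound (fun j => φ 1 (TX j x0)) E B τ (fun j => hE _) h1 h2 h3 L)
      have a2 := hre L x0
      rw [hx0] at a2
      have a3 := abs_le.1 (hR x0)
      have a4 := abs_le.1 (hR (TX L x0))
      have a5 := s1 L
      have a6 := s2 L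
      have a7 : (0 : ℤ) ≤ 2 * ((4 * B + 2) * E) := by positivity
      rw [abs_le, abs_le]
      omega
    intro i
    obtain ⟨L, rfl | rfl⟩ := Int.eq_nat_or_neg i
    · exact (hL L).1
    · exact (hL L).2
  refine ⟨2 * (2 * ((4 * B + 2) * E) + 2 * Rr), fun i x => ?_⟩
  have hc : IsClosed {y : X | |φ i y| ≤ 2 * (2 * ((4 * B + 2) * E) + 2 * Rr)} :=
    (isClosed_discrete {a : ℤ | |a| ≤ 2 * (2 * ((4 * B + 2) * E) + 2 * Rr)}).preimage (hφ i)
  refine hc.closure_subset_iff.2 ?_ (minimalX x0 x)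
  rintro _ ⟨j, rfl⟩
  have a1 := abs_le.1 (hb (i + j))
  have a2 := abs_le.1 (hb j)
  have a3 := hco i j x0
  show |φ i (TX j x0)| ≤ _
  rw [abs_le]
  omega

/-- a bounded continuous integer cocycle is a coboundary -/
lemma coboundary (φ : ℤ → X → ℤ) (hφ : ∀ i, Continuous (φ i))
    (hco : ∀ i j x, φ (i + j) x = φ i (TX j x) + φ j x) (C : ℤ) (hC : ∀ i x, |φ i x| ≤ C) :
    ∃ ψ : X → ℤ, Continuous ψ ∧ ∀ j x, ψ (TX j x) = ψ x - φ j x := by
  have h1 : ∀ x, ∃ m : ℤ, (∃ i, φ i x = m) ∧ ∀ z, (∃ i, φ i x = z) → z ≤ m := fun x =>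
    Int.exists_greatest_of_bdd ⟨C, by rintro _ ⟨i, rfl⟩; exact (abs_le.1 (hC i x)).2⟩ ⟨_, 0, rfl⟩
  choose ψ hψ1 hψ2 using h1
  have hsh : ∀ j x, ψ (TX j x) = ψ x - φ j x := by
    intro j x
    obtain ⟨i, hi⟩ := hψ1 x
    obtain ⟨i', hi'⟩ := hψ1 (TX j x)
    have a1 := hψ2 x _ ⟨i' + j, rfl⟩
    have a2 := hψ2 (TX j x) _ ⟨i - j, rfl⟩
    have a3 := hco i' j x
    have a4 := hco (i - j) j x
    rw [sub_add_cancel] at a4
    omega
  obtain ⟨m, ⟨x1, hx1⟩, hm⟩ : ∃ m : ℤ, (∃ x, ψ x = m) ∧ ∀ z, (∃ x, ψ x = z) → z ≤ m :=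
    Int.exists_greatest_of_bdd ⟨C, by
      rintro _ ⟨x, rfl⟩
      obtain ⟨i, hi⟩ := hψ1 x
      rw [← hi]
      exact (abs_le.1 (hC i x)).2⟩ ⟨_, Classical.arbitrary X, rfl⟩
  obtain ⟨i, hi⟩ := hψ1 x1
  have hU : IsOpen {y : X | φ i y = m} := (isOpen_discrete {m}).preimage (hφ i)
  have hUm : ∀ y, φ i y = m → ψ y = m := fun y hy =>
    le_antisymm (hm _ ⟨y, rfl⟩) (hψ2 y _ ⟨i, hy⟩)
  refine ⟨ψ, ?_, hsh⟩
  rw [← IsLocallyConstant.iff_continuous, IsLocallyConstant.iff_eventually_eq]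
  intro x
  obtain ⟨j, hj⟩ := (minimalX x).exists_mem_open hU ⟨x1, hi.trans hx1⟩
  have e1 : ∀ᶠ y in 𝓝 x, φ i (TX j y) = m := (hU.preimage (cTX j)).mem_nhds hj
  have e2 : ∀ᶠ y in 𝓝 x, φ j y = φ j x :=
    ((isOpen_discrete {φ j x}).preimage (hφ j)).mem_nhds rfl
  filter_upwards [e1, e2] with y h1 h2
  have a1 := hUm _ h1
  have a2 := hUm _ hj
  have a3 := hsh j y
  have a4 := hsh j x
  omega

lemma exists_log (g : C(M, Circle)) : ∃ h : C(M, ℝ), ∀ p, Circle.exp (h p) = g p := by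
  obtain ⟨h, hh⟩ := lift1 (g.comp ⟨pi, cpi⟩)
  have hh' : ∀ q, Circle.exp (h q) = g (pi q) := hh
  have hT := cTX
  have hs := csX
  have H1 : ∀ i : ℤ, ∃ κ : X → ℤ, Continuous κ ∧
      ∀ x t, h (TX i x, t - i) = h (x, t) + κ x * (2 * π) := fun i =>
    int_diff (fun q => h (TX i q.1, q.2 - i)) h (by fun_prop) h.continuous
      (fun q => by rw [hh', hh', pi_T])
  choose φ hφ hφ' using H1
  obtain ⟨ρ, hρ, hρ'⟩ : ∃ κ : X → ℤ, Continuous κ ∧
      ∀ x t, h (sX x, -t) = h (x, t) + κ x * (2 * π) :=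
    int_diff (fun q => h (sX q.1, -q.2)) h (by fun_prop) h.continuous
      (fun q => by rw [hh', hh', pi_s])
  have hco : ∀ i j x, φ (i + j) x = φ i (TX j x) + φ j x := by
    intro i j x
    apply cancel (a := h (x, 0))
    have a1 := hφ' (i + j) x 0
    have a2 := hφ' i (TX j x) (0 - j)
    have a3 := hφ' j x 0
    rw [TX_add, show (0 : ℝ) - ((i + j : ℤ) : ℝ) = 0 - j - i by push_cast; ring] at a1
    push_cast
    linarith
  have hre : ∀ i x, ρ (TX i x) + φ i x = φ (-i) (sX x) + ρ x := by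
    intro i x
    apply cancel (a := h (x, 0))
    have a1 := hρ' (TX i x) (0 - i)
    have a2 := hφ' i x 0
    have a3 := hφ' (-i) (sX x) (-0)
    have a4 := hρ' x 0
    rw [← sX_TX, show (-0 : ℝ) - ((-i : ℤ) : ℝ) = -(0 - i) by push_cast; ring] at a3
    push_cast
    linarith
  have hρρ : ∀ x, ρ (sX x) + ρ x = 0 := by
    intro x
    apply cancel (a := h (x, 0))
    have a1 := hρ' (sX x) (-0)
    have a2 := hρ' x 0
    rw [sX_sX, neg_neg] at a1
    push_cast
    linarith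
  obtain ⟨C, hC⟩ := cocycle_bdd φ ρ hφ hρ hco hre
  obtain ⟨ψ, hψ, hsh⟩ := coboundary φ hφ hco C hC
  have hσ : ∀ x, ρ x + ψ (sX x) - ψ x = 0 := by
    intro x
    have hc : IsClosed {y : X | ρ y + ψ (sX y) - ψ y = ρ x + ψ (sX x) - ψ x} :=
      isClosed_eq (by fun_prop) continuous_const
    have a1 : sX x ∈ {y : X | ρ y + ψ (sX y) - ψ y = ρ x + ψ (sX x) - ψ x} := by
      refine hc.closure_subset_iff.2 ?_ (minimalX x (sX x))
      rintro _ ⟨i, rfl⟩
      show ρ (TX i x) + ψ (sX (TX i x)) - ψ (TX i x) = _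
      rw [sX_TX, hsh, hsh]
      have := hre i x
      omega
    have a2 : ρ (sX x) + ψ (sX (sX x)) - ψ (sX x) = ρ x + ψ (sX x) - ψ x := a1
    rw [sX_sX] at a2
    have := hρρ x
    omega
  let h' : X × ℝ → ℝ := fun q => h q + ψ q.1 * (2 * π)
  have c' : Continuous h' := by
    have : Continuous fun q : X × ℝ => (ψ q.1 : ℝ) :=
      Int.isClosedEmbedding_coe_real.continuous.comp (hψ.comp continuous_fst)
    fun_prop
  have iT : ∀ (i : ℤ) x t, h' (TX i x, t - i) = h' (x, t) := by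
    intro i x t
    simp only [h', hφ', hsh]
    push_cast; ring
  have iS : ∀ x t, h' (sX x, -t) = h' (x, t) := by
    intro x t
    have : ψ (sX x) = ψ x - ρ x := by have := hσ x; omega
    simp only [h', hρ', this]
    push_cast; ring
  refine ⟨⟨Quotient.lift h' ?_, Continuous.quotient_lift c' _⟩, ?_⟩
  · intro p q hpq
    rcases pi_eq_iff.1 (Quotient.sound hpq : pi p = pi q) with ⟨i, rfl⟩ | ⟨i, rfl⟩
    · exact iT i q.1 q.2
    · rw [← iT i q.1 q.2, ← iS (TX i q.1) (q.2 - i), neg_sub]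
  · intro p
    obtain ⟨q, rfl⟩ := pi_surj p
    show Circle.exp (h q + ψ q.1 * (2 * π)) = _
    rw [Circle.exp_add, Circle.exp_int_mul_two_pi, mul_one, hh']

lemma null (g : C(M, Circle)) : ContinuousMap.Homotopic g (ContinuousMap.const M 1) := by
  obtain ⟨h, hh⟩ := exists_log g
  refine ⟨⟨⟨fun z => Circle.exp ((1 - (z.1 : ℝ)) * h z.2), by fun_prop⟩, ?_, ?_⟩⟩
  · intro p
    simp [hh]
  · intro p
    simp

end Pool.Agent.H186Z.Bel
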