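import Pool.Agent.H186Z.Bel.Space

/-!
The continuum: the quotient of `X × ℝ` by the infinite dihedral group.
-/

set_option autoImplicit false

open Filter Topology Set

namespace Pool.Agent.H186Z.Bel

/-- the infinite dihedral group -/
abbrev D : Type := DihedralGroup 0

/-- `ZMod 0` is `ℤ` -/
def toZ (i : ZMod 0) : ℤ := i

/-- `ℤ` is `ZMod 0` -/
def ofZ (i : ℤ) : ZMod 0 := i

lemma toZ_add (i j : ZMod 0) : toZ (i + j) = toZ i + toZ j := rfl
lemma toZ_sub (i j : ZMod 0) : toZ (i - j) = toZ i - toZ j := rfl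
lemma toZ_zero : toZ 0 = 0 := rfl
lemma toZ_ofZ (i : ℤ) : toZ (ofZ i) = i := rfl
lemma ofZ_toZ (i : ZMod 0) : ofZ (toZ i) = i := rfl

/-- the action on `X × ℝ` -/
noncomputable def act : D → X × ℝ → X × ℝ
  | .r i, q => (TX (toZ i) q.1, q.2 - toZ i)
  | .sr i, q => (sX (TX (toZ i) q.1), toZ i - q.2)

noncomputable instance : MulAction D (X × ℝ) where
  smul := act
  one_smul q := by
    show act (.r 0) q = q
    simp [act, toZ_zero, TX_zero]
  mul_smul g h q := by
    show act (g * h) q = act g (act h q)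
    rcases g with i | i <;> rcases h with j | j
    · simp only [DihedralGroup.r_mul_r, act, toZ_add, TX_add]
      refine Prod.ext rfl ?_
      push_cast; ring
    · simp only [DihedralGroup.r_mul_sr, act, toZ_sub, sX_TX, ← TX_add]
      refine Prod.ext ?_ ?_
      · simp only; congr 1; ring
      · push_cast; ring
    · simp only [DihedralGroup.sr_mul_r, act, toZ_add, TX_add]
      refine Prod.ext rfl ?_
      push_cast; ring
    · simp only [DihedralGroup.sr_mul_sr, act, toZ_sub, sX_TX, ← TX_add, sX_sX]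
      refine Prod.ext ?_ ?_
      · simp only; congr 1; ring
      · push_cast; ring

lemma smul_def (g : D) (q : X × ℝ) : g • q = act g q := rfl

instance : ContinuousConstSMul D (X × ℝ) where
  continuous_const_smul g := by
    have h1 := cTX
    have h2 := csX
    rcases g with i | i
    · simp only [smul_def, act]
      fun_prop
    · simp only [smul_def, act]
      fun_prop

instance : ProperlyDiscontinuousSMul D (X × ℝ) where
  finite_disjoint_inter_image := by
    intro K L hK hL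
    obtain ⟨a, ha⟩ := (hK.image continuous_snd).isBounded.exists_norm_le
    obtain ⟨b, hb⟩ := (hL.image continuous_snd).isBounded.exists_norm_le
    obtain ⟨N, hN⟩ := exists_nat_ge (a + b)
    refine (((finite_Icc (-(N : ℤ)) N).image fun i => DihedralGroup.r (ofZ i)).union
      ((finite_Icc (-(N : ℤ)) N).image fun i => DihedralGroup.sr (ofZ i))).subset ?_
    rintro g ⟨_, ⟨q, hq, rfl⟩, hq'⟩
    have h1 := abs_le.1 (ha _ ⟨q, hq, rfl⟩)
    have h2 := abs_le.1 (hb _ ⟨_, hq', rfl⟩)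
    rcases g with i | i
    · simp only [smul_def, act] at h2
      refine Or.inl ⟨toZ i, ⟨?_, ?_⟩, rfl⟩
      · have : -(N : ℝ) ≤ toZ i := by linarith [h1.1, h2.2]
        exact_mod_cast this
      · have : (toZ i : ℝ) ≤ N := by linarith [h1.2, h2.1]
        exact_mod_cast this
    · simp only [smul_def, act] at h2
      refine Or.inr ⟨toZ i, ⟨?_, ?_⟩, rfl⟩
      · have : -(N : ℝ) ≤ toZ i := by linarith [h1.1, h2.1]
        exact_mod_cast this
      · have : (toZ i : ℝ) ≤ N := by linarith [h1.2, h2.2]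
        exact_mod_cast this

/-- the continuum -/
abbrev M : Type := Quotient (MulAction.orbitRel D (X × ℝ))

/-- the quotient map -/
noncomputable def pi (q : X × ℝ) : M := Quotient.mk _ q

lemma cpi : Continuous pi := continuous_quotient_mk'

lemma pi_open : IsOpenMap pi := isOpenMap_quotient_mk'_mul

lemma pi_surj : Function.Surjective pi := Quot.mk_surjective

lemma pi_eq_iff {p q : X × ℝ} : pi p = pi q ↔
    (∃ i : ℤ, p = (TX i q.1, q.2 - i)) ∨ (∃ i : ℤ, p = (sX (TX i q.1), i - q.2)) := by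
  unfold pi
  rw [Quotient.eq, MulAction.orbitRel_apply, MulAction.mem_orbit_iff]
  constructor
  · rintro ⟨i | i, rfl⟩
    · exact Or.inl ⟨toZ i, rfl⟩
    · exact Or.inr ⟨toZ i, rfl⟩
  · rintro (⟨i, rfl⟩ | ⟨i, rfl⟩)
    · exact ⟨.r (ofZ i), rfl⟩
    · exact ⟨.sr (ofZ i), rfl⟩

lemma pi_T (i : ℤ) (x : X) (t : ℝ) : pi (TX i x, t - i) = pi (x, t) :=
  pi_eq_iff.2 (Or.inl ⟨i, rfl⟩)

lemma pi_s (x : X) (t : ℝ) : pi (sX x, -t) = pi (x, t) :=
  pi_eq_iff.2 (Or.inr ⟨0, by simp [TX_zero]⟩)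

instance : CompactSpace M := by
  have h : pi '' (univ ×ˢ Icc 0 1) = univ := by
    refine eq_univ_of_forall fun p => ?_
    obtain ⟨⟨x, t⟩, rfl⟩ := pi_surj p
    exact ⟨(TX ⌊t⌋ x, t - ⌊t⌋), ⟨trivial, Int.fract_nonneg t, (Int.fract_lt_one t).le⟩,
      pi_T _ _ _⟩
  exact ⟨h ▸ (isCompact_univ.prod isCompact_Icc).image cpi⟩

instance : LocallyCompactSpace X := inferInstance

instance : LocallyCompactSpace (X × ℝ) := inferInstance

instance : T2Space M := t2Space_of_properlyDiscontinuousSMul_of_t2Space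

instance : SecondCountableTopology M := ContinuousConstSMul.secondCountableTopology

lemma leaf_dense (x : X) : DenseRange fun t : ℝ => pi (x, t) := by
  intro p
  obtain ⟨⟨y, t⟩, rfl⟩ := pi_surj p
  have hc : Continuous fun w : X => pi (w, t) := cpi.comp (by fun_prop)
  refine map_mem_closure (f := fun w : X => pi (w, t)) hc (minimalX x y) ?_
  rintro _ ⟨i, rfl⟩
  refine ⟨t + i, ?_⟩
  simp only
  rw [← pi_T i x (t + i), add_sub_cancel_right]

instance : ConnectedSpace M := by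
  let x : X := Classical.arbitrary X
  have h1 : IsConnected (range fun t : ℝ => pi (x, t)) :=
    isConnected_range (cpi.comp (by fun_prop))
  have h2 := h1.closure
  rw [(leaf_dense x).closure_range] at h2
  exact connectedSpace_iff_univ.2 h2

instance : Nontrivial M := by
  let x : X := Classical.arbitrary X
  refine ⟨pi (x, 1 / 2), pi (x, 0), fun h => ?_⟩
  have key : ∀ i : ℤ, (1 / 2 : ℝ) ≠ i := by
    intro i hi
    have h1 : ((2 * i : ℤ) : ℝ) = ((1 : ℤ) : ℝ) := by push_cast; linarith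
    have h2 : 2 * i = 1 := by exact_mod_cast h1
    omega
  rcases pi_eq_iff.1 h with ⟨i, hi⟩ | ⟨i, hi⟩
  · exact key (-i) (by simpa using congrArg Prod.snd hi)
  · exact key i (by simpa using congrArg Prod.snd hi)

/-- the self-map of the continuum -/
noncomputable def fM : C(M, M) where
  toFun := Quotient.lift (fun q : X × ℝ => pi (FX q.1, 2 * q.2)) (by
    intro p q h
    rcases pi_eq_iff.1 (Quotient.sound h : pi p = pi q) with ⟨i, rfl⟩ | ⟨i, rfl⟩
    · refine pi_eq_iff.2 (Or.inl ⟨2 * i, ?_⟩)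
      simp only [FX_TX]
      refine Prod.ext rfl ?_
      push_cast; ring
    · refine pi_eq_iff.2 (Or.inr ⟨2 * i, ?_⟩)
      simp only [FX_TX, FX_sX]
      refine Prod.ext rfl ?_
      push_cast; ring)
  continuous_toFun := Continuous.quotient_lift (cpi.comp (by have := cFX; fun_prop)) _

lemma fM_pi (x : X) (t : ℝ) : fM (pi (x, t)) = pi (FX x, 2 * t) := rfl

lemma fM_surj : Function.Surjective fM := by
  let x : X := Classical.arbitrary X
  have hc : IsClosed (range fM) := (isCompact_range fM.continuous).isClosed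
  intro p
  refine hc.closure_subset_iff.2 ?_ (leaf_dense (FX x) p)
  rintro _ ⟨t, rfl⟩
  refine ⟨pi (x, t / 2), ?_⟩
  rw [fM_pi]
  congr 2
  ring

lemma visits {V : Set X} (hV : IsOpen V) (hne : V.Nonempty) :
    ∃ N : ℕ, ∀ x : X, ∃ j : ℤ, |j| ≤ N ∧ TX j x ∈ V := by
  obtain ⟨s, hs⟩ := isCompact_univ.elim_finite_subcover (fun j : ℤ => TX j ⁻¹' V)
    (fun j => hV.preimage (cTX j)) (fun x _ => by
      obtain ⟨j, hj⟩ := (minimalX x).exists_mem_open hV hne
      exact mem_iUnion.2 ⟨j, hj⟩)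
  refine ⟨s.sup Int.natAbs, fun x => ?_⟩
  obtain ⟨j, hj, hx⟩ := mem_iUnion₂.1 (hs (mem_univ x))
  refine ⟨j, ?_, hx⟩
  have := Finset.le_sup (f := Int.natAbs) hj
  rw [abs_le]
  omega

lemma irred (p : M) (K : Set M) (hK : IsClosed K) (hc : IsConnected K) (hp : p ∈ K)
    (hf : fM p ∈ K) : K = univ := by
  by_contra hne
  obtain ⟨p0, hp0⟩ := (ne_univ_iff_exists_notMem K).1 hne
  obtain ⟨⟨v, t0⟩, rfl⟩ := pi_surj p0
  obtain ⟨⟨x, t⟩, rfl⟩ := pi_surj p
  have hV : IsOpen {w : X | pi (w, t0) ∉ K} :=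
    hK.isOpen_compl.preimage (f := fun w : X => pi (w, t0)) (cpi.comp (by fun_prop))
  obtain ⟨N, hN⟩ := visits hV ⟨v, hp0⟩
  obtain ⟨j1, h1, h1'⟩ := hN (TX (⌊t - t0⌋ - N - 1) x)
  obtain ⟨j2, h2, h2'⟩ := hN (TX (⌊t - t0⌋ + N + 1) x)
  rw [← TX_add] at h1' h2'
  set a : ℤ := j1 + (⌊t - t0⌋ - N - 1) with ha
  set b : ℤ := j2 + (⌊t - t0⌋ + N + 1) with hb
  have hat : t0 + a < t := by
    have e1 : a ≤ ⌊t - t0⌋ - 1 := by have := abs_le.1 h1; omega
    have e2 : (a : ℝ) ≤ (⌊t - t0⌋ : ℝ) - 1 := by exact_mod_cast e1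
    linarith [Int.floor_le (t - t0)]
  have hbt : t < t0 + b := by
    have e1 : ⌊t - t0⌋ + 1 ≤ b := by have := abs_le.1 h2; omega
    have e2 : (⌊t - t0⌋ : ℝ) + 1 ≤ b := by exact_mod_cast e1
    linarith [Int.lt_floor_add_one (t - t0)]
  have hDc : IsClosed (Prod.fst '' ((univ ×ˢ Icc (t0 + a) (t0 + b)) ∩ pi ⁻¹' {fM (pi (x, t))})) :=
    (((isCompact_univ.prod isCompact_Icc).inter_right
      (isClosed_singleton.preimage cpi)).image continuous_fst).isClosed
  have hx : x ∈ Prod.fst '' ((univ ×ˢ Icc (t0 + a) (t0 + b)) ∩ pi ⁻¹' {fM (pi (x, t))}) := by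
    rw [← hDc.closure_eq, mem_closure_iff]
    intro O hO hxO
    obtain ⟨B, hB, hxB, hBs⟩ := compact_exists_isClopen_in_isOpen
      (hO.inter ((hV.preimage (cTX a)).inter (hV.preimage (cTX b)))) ⟨hxO, h1', h2'⟩
    have hU : IsOpen (pi '' (B ×ˢ Ioo (t0 + a) (t0 + b))) := pi_open _ (hB.2.prod isOpen_Ioo)
    have hC : IsClosed (pi '' (B ×ˢ Icc (t0 + a) (t0 + b))) :=
      ((hB.1.isCompact.prod isCompact_Icc).image cpi).isClosed
    have hsub := hc.isPreconnected.subset_of_closure_inter_subset hU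
      ⟨_, hp, (x, t), ⟨hxB, hat, hbt⟩, rfl⟩ (by
        rintro q ⟨hq1, hq2⟩
        obtain ⟨⟨y, s⟩, ⟨hy, hs1, hs2⟩, rfl⟩ := hC.closure_subset_iff.2
          (image_mono (prod_mono_right Ioo_subset_Icc_self)) hq1
        refine ⟨(y, s), ⟨hy, lt_of_le_of_ne hs1 ?_, lt_of_le_of_ne hs2 ?_⟩, rfl⟩
        · intro h
          apply (hBs hy).2.1
          have e := pi_T a y s
          have h' : t0 + a = s := h
          rw [show s - a = t0 by linarith] at e
          rw [e]; exact hq2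
        · intro h
          apply (hBs hy).2.2
          have e := pi_T b y s
          have h' : s = t0 + b := h
          rw [show s - b = t0 by linarith] at e
          rw [e]; exact hq2)
    obtain ⟨⟨y, s⟩, ⟨hy, hs⟩, he⟩ := hsub hf
    exact ⟨y, (hBs hy).1, (y, s), ⟨⟨trivial, Ioo_subset_Icc_self hs⟩, he⟩, rfl⟩
  obtain ⟨⟨y, s⟩, ⟨-, he⟩, rfl⟩ := hx
  have he' : pi (FX y, 2 * t) = pi (y, s) := (he : pi (y, s) = _).symm
  rcases pi_eq_iff.1 he' with ⟨i, hi⟩ | ⟨i, hi⟩
  · exact (noinvX y i).1 (congrArg Prod.fst hi)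
  · exact (noinvX y i).2 (congrArg Prod.fst hi)

end Pool.Agent.H186Z.Bel
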