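import Pool.Agent.H186Z.Bel.Color

/-!
A minimal system with a reversing involution and a doubling map without invariant orbit.
-/

set_option autoImplicit false

open Filter Topology Set

namespace Pool.Agent.H186Z.Bel

/-- the data used to build the continuum -/
structure Sys (X : Type) [TopologicalSpace X] where
  T : ℤ → X → X
  s : X → X
  F : X → X
  cT : ∀ i, Continuous (T i)
  cs : Continuous s
  cF : Continuous F
  T_zero : ∀ x, T 0 x = x
  T_add : ∀ i j x, T (i + j) x = T i (T j x)
  ss : ∀ x, s (s x) = x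
  sT : ∀ i x, s (T i x) = T (-i) (s x)
  FT : ∀ i x, F (T i x) = T (2 * i) (F x)
  Fs : ∀ x, F (s x) = s (F x)
  minimal : ∀ x, DenseRange fun i => T i x
  noinv : ∀ x i, F x ≠ T i x ∧ F x ≠ s (T i x)
  refl : ∀ η : X → ℤ, Continuous η → ∃ x, s x = x ∧ ∃ (τ : ℤ → ℤ) (B : ℕ),
    (∀ j, τ (τ j) = j) ∧ (∀ j, |τ j + j| ≤ B) ∧ ∀ j, η (T (τ j) x) = η (T j x)

/-- the ambient space -/
abbrev Y : Type := G × (ℤ → ℕ → Color)

/-- the graph map -/
noncomputable def Phi (z : G) : Y := (z, fun n => chi (z - n))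

/-- the 6-adic integers that are not integers -/
def G0 : Set G := {z | ∀ n : ℤ, z ≠ n}

/-- the blown up odometer -/
def XS : Set Y := closure (Phi '' G0)

/-- translation -/
noncomputable def TY (i : ℤ) (y : Y) : Y := (y.1 + i, fun n => y.2 (n - i))

/-- reflection -/
noncomputable def sY (y : Y) : Y := (-y.1, fun n => y.2 (-n))

open Classical in
/-- doubling -/
noncomputable def FY (y : Y) : Y :=
  (2 * y.1, fun m => if Even m then (fun k => y.2 (m / 2) (k + 1)) else chi (2 * y.1 - m))

lemma cTY (i : ℤ) : Continuous (TY i) := by unfold TY; fun_prop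

lemma csY : Continuous sY := by unfold sY; fun_prop

lemma cFY : Continuous FY := by
  unfold FY
  refine Continuous.prodMk (by fun_prop) (continuous_pi fun m => ?_)
  by_cases hm : Even m
  · simp only [hm, if_true]
    fun_prop
  · simp only [hm, if_false]
    rw [continuous_iff_continuousAt]
    intro y
    have h : 2 * y.1 - (m : G) ≠ 0 := fun h0 => hm (even_of_two_mul (sub_eq_zero.1 h0))
    exact ContinuousAt.comp (g := chi) (f := fun y : Y => 2 * y.1 - (m : G)) (chi_cont h)
      (by fun_prop)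

lemma TY_Phi (i : ℤ) (z : G) : TY i (Phi z) = Phi (z + i) := by
  unfold TY Phi
  refine Prod.ext rfl (funext fun n => ?_)
  simp only
  congr 1
  push_cast
  ring

lemma sY_Phi (z : G) : sY (Phi z) = Phi (-z) := by
  unfold sY Phi
  refine Prod.ext rfl (funext fun n => ?_)
  simp only
  rw [← chi_neg]
  congr 1
  push_cast
  ring

lemma FY_Phi (z : G) : FY (Phi z) = Phi (2 * z) := by
  unfold FY Phi
  refine Prod.ext rfl (funext fun m => ?_)
  simp only
  split_ifs with hm
  · obtain ⟨n, rfl⟩ := hm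
    have : (n + n) / 2 = n := by omega
    rw [this]
    funext k
    unfold chi
    congr 1
    push_cast
    ring
  · rfl

lemma TY_mem (i : ℤ) {y : Y} (hy : y ∈ XS) : TY i y ∈ XS := by
  refine map_mem_closure (cTY i) hy ?_
  rintro _ ⟨z, hz, rfl⟩
  refine ⟨z + i, fun n hn => hz (n - i) ?_, (TY_Phi i z).symm⟩
  push_cast
  rw [← hn]; ring

lemma sY_mem {y : Y} (hy : y ∈ XS) : sY y ∈ XS := by
  refine map_mem_closure csY hy ?_
  rintro _ ⟨z, hz, rfl⟩
  refine ⟨-z, fun n hn => hz (-n) ?_, (sY_Phi z).symm⟩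
  push_cast
  rw [← hn]; ring

lemma half_of_two_mul {z : G} {m : ℤ} (h : 2 * z = m) : ∃ n : ℤ, m = 2 * n ∧ z = n := by
  obtain ⟨n, rfl⟩ := even_of_two_mul h
  refine ⟨n, by ring, ?_⟩
  rw [← sub_eq_zero]
  apply mul_eq_zero_int (n := 2) (by norm_num)
  push_cast at h ⊢
  linear_combination h

lemma FY_mem {y : Y} (hy : y ∈ XS) : FY y ∈ XS := by
  refine map_mem_closure cFY hy ?_
  rintro _ ⟨z, hz, rfl⟩
  refine ⟨2 * z, fun m hm => ?_, (FY_Phi z).symm⟩
  obtain ⟨n, -, hn⟩ := half_of_two_mul hm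
  exact hz n hn

lemma L1 {y : Y} (hy : y ∈ XS) {n : ℤ} (hn : y.1 ≠ n) : y.2 n = chi (y.1 - n) := by
  by_contra hne
  have h1 : ContinuousAt (fun w : Y => w.2 n) y := by fun_prop
  have h2 : ContinuousAt (fun w : Y => chi (w.1 - n)) y :=
    ContinuousAt.comp (g := chi) (f := fun w : Y => w.1 - (n : G)) (chi_cont (sub_ne_zero.2 hn))
      (by fun_prop)
  have h3 : ∀ᶠ w in 𝓝 y, w.2 n ≠ chi (w.1 - n) := (h1.prodMk h2).eventually (isOpen_ne_fun continuous_fst continuous_snd |>.mem_nhds hne)
  obtain ⟨w, hw, z, -, rfl⟩ := mem_closure_iff_nhds.1 hy _ h3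
  exact hw rfl

lemma L2 {y : Y} (hy : y ∈ XS) (n : ℤ) : y.2 n 1 ≠ y.2 n 0 := by
  have hc : IsClosed {w : Y | w.2 n 1 ≠ w.2 n 0} := by
    have : {w : Y | w.2 n 1 ≠ w.2 n 0} =
        (fun w : Y => (w.2 n 1, w.2 n 0)) ⁻¹' {p : Color × Color | p.1 ≠ p.2} := rfl
    rw [this]
    exact (isClosed_discrete _).preimage (by fun_prop)
  refine hc.closure_subset_iff.2 ?_ hy
  rintro _ ⟨z, hz, rfl⟩
  exact chi_ne (sub_ne_zero.2 (hz n)) 0

lemma eq_Phi {y : Y} (hy : y ∈ XS) (h : y.1 ∈ G0) : y = Phi y.1 :=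
  Prod.ext rfl (funext fun n => L1 hy (h n))

lemma G0_nonempty : ((1, 0) : G) ∈ G0 := by
  intro n hn
  have h1 : (1 : ℤ_[2]) = n := by simpa using congrArg Prod.fst hn
  have h2 : (0 : ℤ_[3]) = n := by simpa using congrArg Prod.snd hn
  have h3 : (1 : ℤ) = n := by exact_mod_cast h1
  have h4 : (0 : ℤ) = n := by exact_mod_cast h2
  omega

/-- the blown up odometer as a type -/
abbrev X : Type := ↥XS

instance : CompactSpace X := isCompact_iff_compactSpace.1 isClosed_closure.isCompact

instance : Nonempty X := ⟨⟨Phi (1, 0), subset_closure ⟨_, G0_nonempty, rfl⟩⟩⟩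

/-- translation on `X` -/
noncomputable def TX (i : ℤ) (x : X) : X := ⟨TY i x.1, TY_mem i x.2⟩

/-- reflection on `X` -/
noncomputable def sX (x : X) : X := ⟨sY x.1, sY_mem x.2⟩

/-- doubling on `X` -/
noncomputable def FX (x : X) : X := ⟨FY x.1, FY_mem x.2⟩

/-- the projection to the odometer -/
def pr (x : X) : G := x.1.1

lemma cpr : Continuous pr := by unfold pr; fun_prop

lemma cTX (i : ℤ) : Continuous (TX i) := ((cTY i).comp continuous_subtype_val).subtype_mk _

lemma csX : Continuous sX := (csY.comp continuous_subtype_val).subtype_mk _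

lemma cFX : Continuous FX := (cFY.comp continuous_subtype_val).subtype_mk _

lemma pr_TX (i : ℤ) (x : X) : pr (TX i x) = pr x + i := rfl

lemma pr_sX (x : X) : pr (sX x) = -pr x := rfl

lemma TX_add (i j : ℤ) (x : X) : TX (i + j) x = TX i (TX j x) := by
  apply Subtype.ext
  simp only [TX, TY]
  refine Prod.ext ?_ (funext fun n => ?_)
  · push_cast; ring
  · exact congrArg x.1.2 (by ring)

lemma TX_zero (x : X) : TX 0 x = x := by
  apply Subtype.ext
  simp [TX, TY]

lemma sX_sX (x : X) : sX (sX x) = x := by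
  apply Subtype.ext
  simp [sX, sY]

lemma sX_TX (i : ℤ) (x : X) : sX (TX i x) = TX (-i) (sX x) := by
  apply Subtype.ext
  simp only [TX, TY, sX, sY]
  refine Prod.ext ?_ (funext fun n => ?_)
  · push_cast; ring
  · exact congrArg x.1.2 (by ring)

lemma FX_TX (i : ℤ) (x : X) : FX (TX i x) = TX (2 * i) (FX x) := by
  apply Subtype.ext
  simp only [TX, TY, FX, FY]
  refine Prod.ext ?_ (funext fun m => ?_)
  · push_cast; ring
  · simp only
    have h : Even (m - 2 * i) ↔ Even m := by simp [parity_simps]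
    by_cases hm : Even m
    · rw [if_pos hm, if_pos (h.2 hm)]
      have : (m - 2 * i) / 2 = m / 2 - i := by omega
      rw [this]
    · rw [if_neg hm, if_neg (fun h' => hm (h.1 h'))]
      congr 1
      push_cast; ring

lemma FX_sX (x : X) : FX (sX x) = sX (FX x) := by
  apply Subtype.ext
  simp only [sX, sY, FX, FY]
  refine Prod.ext ?_ (funext fun m => ?_)
  · simp
  · simp only
    by_cases hm : Even m
    · rw [if_pos hm, if_pos hm.neg]
      obtain ⟨n, rfl⟩ := hm
      have : -(n + n) / 2 = -((n + n) / 2) := by omega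
      rw [this]
    · rw [if_neg hm, if_neg (fun h' => hm (by simpa using h'))]
      rw [← chi_neg]
      congr 1
      push_cast; ring

lemma closed_img {S : Set X} (hS : IsClosed S) : IsClosed (pr '' S) :=
  (hS.isCompact.image cpr).isClosed

lemma orbit_onto (x : X) (w : G) : w ∈ pr '' closure (range fun i => TX i x) := by
  have h1 : DenseRange fun i : ℤ => pr x + (i : G) :=
    (Homeomorph.addLeft (pr x)).surjective.denseRange.comp dense_int
      (Homeomorph.addLeft (pr x)).continuous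
  refine (closed_img isClosed_closure).closure_subset_iff.2 ?_ (h1 w)
  rintro _ ⟨i, rfl⟩
  exact ⟨TX i x, subset_closure ⟨i, rfl⟩, rfl⟩

lemma minimalX (x : X) : DenseRange fun i => TX i x := by
  intro y
  have hc : IsClosed (Subtype.val '' closure (range fun i => TX i x)) :=
    (isClosed_closure.isCompact.image continuous_subtype_val).isClosed
  have h : XS ⊆ Subtype.val '' closure (range fun i => TX i x) := by
    refine hc.closure_subset_iff.2 ?_
    rintro _ ⟨z, hz, rfl⟩
    obtain ⟨u, hu, huz⟩ := orbit_onto x z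
    refine ⟨u, hu, ?_⟩
    have := eq_Phi u.2 (by rw [show u.1.1 = z from huz]; exact hz)
    rw [this, show u.1.1 = z from huz]
  obtain ⟨u, hu, huy⟩ := h y.2
  rwa [← Subtype.ext huy]

lemma noinvX (x : X) (i : ℤ) : FX x ≠ TX i x ∧ FX x ≠ sX (TX i x) := by
  constructor
  · intro h
    have h0 := congrArg Subtype.val h
    have h1 : 2 * x.1.1 = x.1.1 + i := congrArg Prod.fst h0
    have h2 := congrFun (congrFun (congrArg Prod.snd h0) (2 * i)) 0
    simp only [FX, FY, TX, TY, even_two, Even.mul_right, if_true] at h2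
    have e1 : 2 * i / 2 = i := by omega
    have e2 : 2 * i - i = i := by omega
    rw [e1, e2] at h2
    exact L2 x.2 i h2
  · intro h
    have h0 := congrArg Subtype.val h
    have h1 : 2 * x.1.1 = -(x.1.1 + i) := congrArg Prod.fst h0
    have h3 : 3 * x.1.1 = ((-i : ℤ) : G) := by push_cast; linear_combination h1
    obtain ⟨n, hn⟩ := three_dvd_of_three_mul h3
    have h2 := congrFun (congrFun (congrArg Prod.snd h0) (2 * n)) 0
    simp only [FX, FY, TX, TY, sX, sY, even_two, Even.mul_right, if_true] at h2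
    have e1 : 2 * n / 2 = n := by omega
    have e2 : -(2 * n) - i = n := by omega
    rw [e1, e2] at h2
    exact L2 x.2 n h2

/-- the reflection in the integer `n` -/
noncomputable def sn (n : ℤ) (x : X) : X := TX (2 * n) (sX x)

lemma csn (n : ℤ) : Continuous (sn n) := (cTX _).comp csX

lemma pr_sn (n : ℤ) (x : X) : pr (sn n x) = 2 * n - pr x := by
  unfold sn
  rw [pr_TX, pr_sX]
  push_cast; ring

lemma sn_fix {n : ℤ} {x : X} (hx : pr x = n) : sn n x = x := by
  apply Subtype.ext
  have hx' : x.1.1 = n := hx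
  refine Prod.ext ?_ (funext fun m => ?_)
  · have := pr_sn n x
    rw [hx] at this
    refine Eq.trans this ?_
    rw [hx']; ring
  · show x.1.2 (-(m - 2 * n)) = x.1.2 m
    by_cases hm : m = n
    · exact congrArg x.1.2 (by omega)
    · rw [L1 x.2 (n := m) (by rw [hx']; exact fun h => hm (intCast_inj h).symm),
        L1 x.2 (n := -(m - 2 * n)) (by
          rw [hx']; intro h; have := intCast_inj h; omega), hx', ← chi_neg]
      congr 1
      push_cast; ring

lemma refl_ball {n : ℤ} {w z : G} {r : ℝ} (hn : (n : G) ∈ Metric.ball w r)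
    (hz : z ∈ Metric.ball w r) : 2 * (n : G) - z ∈ Metric.ball w r := by
  rw [IsUltrametricDist.ball_eq_of_mem hn] at hz ⊢
  rw [Metric.mem_ball, dist_eq_norm] at hz ⊢
  rw [← norm_neg]
  have : -(2 * (n : G) - z - n) = z - n := by ring
  rwa [this]

/-- `η` is symmetric over the set `C` for the reflection in the integer `n` of `C` -/
def R (η : X → ℤ) (C : Set G) (n : ℤ) : Prop :=
  (n : G) ∈ C ∧ ∀ y : X, pr y ∈ C → η (sn n y) = η y

lemma exists_R {η : X → ℤ} (hη : Continuous η) (w : G) :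
    ∃ k : ℕ, ∃ n, R η (Metric.ball w ((1 / 2) ^ k)) n := by
  have key : ∀ S : Set X, IsClosed S → (∀ y ∈ S, pr y ≠ w) →
      ∃ k : ℕ, ∀ y : X, pr y ∈ Metric.ball w ((1 / 2) ^ k) → y ∉ S := by
    intro S hS hw
    have h1 : (pr '' S)ᶜ ∈ 𝓝 w :=
      (closed_img hS).isOpen_compl.mem_nhds (by rintro ⟨y, hy, h⟩; exact hw y hy h)
    obtain ⟨ε, hε, hb⟩ := Metric.mem_nhds_iff.1 h1
    obtain ⟨k, hk⟩ := exists_pow_lt_of_lt_one hε (show (1 / 2 : ℝ) < 1 by norm_num)
    exact ⟨k, fun y hy hyS => hb (Metric.ball_subset_ball hk.le hy) ⟨y, hyS, rfl⟩⟩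
  by_cases hw : w ∈ G0
  · let x0 : X := ⟨Phi w, subset_closure ⟨w, hw, rfl⟩⟩
    obtain ⟨k, hk⟩ := key {y | η y ≠ η x0}
      ((isClosed_discrete {a : ℤ | a ≠ η x0}).preimage hη) (by
        intro y hy h
        apply hy
        congr 1
        apply Subtype.ext
        have := eq_Phi y.2 (by rw [show y.1.1 = w from h]; exact hw)
        rw [this, show y.1.1 = w from h])
    obtain ⟨n, hn⟩ := dense_int.exists_dist_lt w (show (0 : ℝ) < (1 / 2) ^ k by positivity)
    have hn' : (n : G) ∈ Metric.ball w ((1 / 2) ^ k) := by rwa [Metric.mem_ball']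
    refine ⟨k, n, hn', fun y hy => ?_⟩
    have a1 := hk y hy
    have a2 := hk (sn n y) (by rw [pr_sn]; exact refl_ball hn' hy)
    simp only [mem_ofPred_eq, not_not] at a1 a2
    rw [a1, a2]
  · simp only [G0, mem_ofPred_eq, not_forall, not_not] at hw
    obtain ⟨n, rfl⟩ := hw
    obtain ⟨k, hk⟩ := key {y | η (sn n y) ≠ η y}
      ((isClosed_discrete {a : ℤ × ℤ | a.1 ≠ a.2}).preimage ((hη.comp (csn n)).prodMk hη)) (by
        intro y hy h
        apply hy
        rw [sn_fix h])
    refine ⟨k, n, Metric.mem_ball_self (by positivity), fun y hy => ?_⟩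
    simpa using hk y hy

lemma reflX (η : X → ℤ) (hη : Continuous η) : ∃ x, sX x = x ∧ ∃ (τ : ℤ → ℤ) (B : ℕ),
    (∀ j, τ (τ j) = j) ∧ (∀ j, |τ j + j| ≤ B) ∧ ∀ j, η (TX (τ j) x) = η (TX j x) := by
  classical
  obtain ⟨x, -, hx⟩ := orbit_onto (Classical.arbitrary X) 0
  have hsx : sX x = x := by
    have := sn_fix (n := 0) (x := x) (by simpa using hx)
    simpa [sn, TX_zero] using this
  let kk : G → ℕ := fun w => Nat.find (exists_R hη w)
  let C : G → Set G := fun w => Metric.ball w ((1 / 2) ^ kk w)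
  have hC : ∀ w w', w' ∈ C w → C w' = C w := by
    intro w w' h
    have e1 := IsUltrametricDist.ball_eq_of_mem h
    have h1 : kk w' ≤ kk w := Nat.find_min' _ (by rw [← e1]; exact Nat.find_spec (exists_R hη w))
    have h2 : w ∈ C w' := by
      have : w ∈ Metric.ball w' ((1 / 2) ^ kk w) := by
        rw [← e1]; exact Metric.mem_ball_self (by positivity)
      exact Metric.ball_subset_ball (pow_le_pow_of_le_one (by norm_num) (by norm_num) h1) this
    have e2 := IsUltrametricDist.ball_eq_of_mem h2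
    have h3 : kk w ≤ kk w' := Nat.find_min' _ (by rw [← e2]; exact Nat.find_spec (exists_R hη w'))
    have h4 : kk w' = kk w := le_antisymm h1 h3
    show Metric.ball w' ((1 / 2) ^ kk w') = Metric.ball w ((1 / 2) ^ kk w)
    rw [h4, e1]
  let ν : G → ℤ := fun w => Classical.epsilon (R η (C w))
  have hν : ∀ w, R η (C w) (ν w) := fun w => Classical.epsilon_spec (Nat.find_spec (exists_R hη w))
  have hν2 : ∀ w w', w' ∈ C w → ν w' = ν w := by
    intro w w' h
    show Classical.epsilon (R η (C w')) = Classical.epsilon (R η (C w))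
    rw [hC w w' h]
  have hlc : IsLocallyConstant ν := by
    rw [IsLocallyConstant.iff_eventually_eq]
    intro w
    filter_upwards [Metric.ball_mem_nhds w (show (0 : ℝ) < (1 / 2) ^ kk w by positivity)] with w' h
    exact hν2 w w' h
  obtain ⟨B, hB⟩ := (hlc.range_finite.image Int.natAbs).bddAbove
  have hself : ∀ w, w ∈ C w := fun w => Metric.mem_ball_self (by positivity)
  refine ⟨x, hsx, fun j => 2 * ν j - j, 2 * B, ?_, ?_, ?_⟩
  · intro j
    have : (((2 * ν j - j : ℤ)) : G) ∈ C j := by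
      push_cast
      exact refl_ball (hν j).1 (hself j)
    simp only
    rw [hν2 _ _ this]
    ring
  · intro j
    have := hB ⟨ν j, ⟨_, rfl⟩, rfl⟩
    simp only at this ⊢
    push_cast
    rw [abs_le]
    omega
  · intro j
    have h1 := (hν j).2 (TX j x) (by rw [pr_TX, hx, zero_add]; exact hself _)
    rw [← h1, sn, sX_TX, hsx, ← TX_add]
    rfl

/-- the system -/
noncomputable def sys : Sys X where
  T := TX
  s := sX
  F := FX
  cT := cTX
  cs := csX
  cF := cFX
  T_zero := TX_zero
  T_add := TX_add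
  ss := sX_sX
  sT := sX_TX
  FT := FX_TX
  Fs := FX_sX
  minimal := minimalX
  noinv := noinvX
  refl := reflX

end Pool.Agent.H186Z.Bel
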